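import Mathlib
import Pool.Agent.Lib.MP_7c15de_co.Defs
import Pool.Agent.Lib.MP_7c15de_co.Lower2
import Pool.Agent.Lib.MP_7c15de_co.AS.Final

set_option autoImplicit false

/-!
# MP_7c15de_co: `k(n) = (1 + o(1)) n`
-/

namespace Pool.Agent.Results.MP_7c15de_co.Asymptotic

open Pool.Agent.Lib.MP_7c15de_co

/-- `k(n) = (1 + o(1)) n`: for every `ε > 0` and all large `n` the set `S(n)` has the least element
`k(n)`, and `n ≤ k(n) ≤ (1 + ε) n`. -/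
theorem result :
    ∀ ε : ℝ, 0 < ε → ∃ n0 : ℕ, ∀ n : ℕ, n0 ≤ n →
      kmin n ∈ S n ∧ (n : ℝ) ≤ kmin n ∧ (kmin n : ℝ) ≤ (1 + ε) * n := by
  intro ε hε
  obtain ⟨n0, hn0⟩ := AS.final_main ε hε
  refine ⟨max n0 1, fun n hn => ?_⟩
  obtain ⟨k, hk, hk2⟩ := hn0 n (le_trans (le_max_left _ _) hn)
  have hn1 : 0 < n := le_trans (le_max_right _ _) hn
  have h1 : kmin n ∈ S n := Nat.sInf_mem ⟨k, hk⟩
  have h2 : kmin n ≤ k := Nat.sInf_le hk
  have h3 : (kmin n : ℝ) ≤ k := by exact_mod_cast h2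
  have h4 : n ≤ kmin n := le_of_mem_S n (kmin n) hn1 h1
  refine ⟨h1, by exact_mod_cast h4, ?_⟩
  linarith

end Pool.Agent.Results.MP_7c15de_co.Asymptotic
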