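import Mathlib
import Pool.Agent.Lib.MP_7c15de_co.OneSided.Lower2

set_option autoImplicit false

/-!
# MP_7c15de_co: the lower bound `k(n) ≥ 2⌊n/2⌋ + 2`
-/

namespace Pool.Agent.Results.MP_7c15de_co.LowerBound

open Pool.Agent.MP7c15de

/-- For every `n ≥ 3`, every element `k` of `S(n)` is at least `2⌊n/2⌋ + 2` (which is `n + 1` for
odd `n` and `n + 2` for even `n`), and every odd element of `S(n)` is at least `2n - 1`. -/
theorem result :
    ∀ n : ℕ, 3 ≤ n → ∀ k ∈ SS n, 2 * (n / 2) + 2 ≤ k ∧ (Odd k → 2 * n - 1 ≤ k) := by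
  intro n hn k hk
  have h1 := le_of_mem_SS (by omega) hk
  have h2 : k ≠ n := fun h => self_not_mem_SS hn (h ▸ hk)
  have h3 : Odd k → 2 * n - 1 ≤ k := fun ho => odd_mem_SS (by omega) hk ho
  refine ⟨?_, h3⟩
  rcases Nat.even_or_odd k with he | ho
  · obtain ⟨c, hc⟩ := he
    omega
  · have := h3 ho
    rcases Nat.lt_or_ge 3 n with h4 | h4
    · omega
    · have : n = 3 := by omega
      omega

end Pool.Agent.Results.MP_7c15de_co.LowerBound
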