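import Mathlib
import Pool.Agent.Lib.MP_7c15de_co.Defs
import Pool.Agent.Lib.MP_7c15de_co.Main

set_option autoImplicit false

open Pool.Agent.Lib.MP_7c15de_co

namespace Pool.Agent.Results.MP_7c15de_co.TreeHost

/-- Every tree with `m` edges decomposes `K_{m,k}` for every 2-dense `k ≥ m`. Hence, for every
`n ≥ 1`, every 2-dense `k ≥ 2n - 1` lies in `S(n)`; so `S(n)` is nonempty and its least element
is at most `2n - 1 + ⌊√(4n - 1)⌋`. -/
theorem result :
    (∀ (V : Type) [Fintype V] (T : SimpleGraph V), T.IsTree → ∀ m k : ℕ,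
      Fintype.card V = m + 1 → TwoDense k → m ≤ k →
      Decomposes T (completeBipartiteGraph (Fin m) (Fin k))) ∧
    (∀ n : ℕ, 1 ≤ n → (∀ k : ℕ, TwoDense k → 2 * n - 1 ≤ k → k ∈ S n) ∧
      (S n).Nonempty ∧ kmin n ≤ 2 * n - 1 + Nat.sqrt (4 * n - 1)) := by
  refine ⟨fun V _ T hT m k hm hk hmk => tree_decomposes T hT m k hm hk hmk, ?_⟩
  intro n hn
  have h2 : ∀ k : ℕ, TwoDense k → 2 * n - 1 ≤ k → k ∈ S n := fun k => twoDense_mem_S n k hn
  obtain ⟨k, hk1, hk2, hk3⟩ := exists_twoDense n hn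
  have hk : k ∈ S n := h2 k hk1 (by omega)
  refine ⟨h2, ⟨k, hk⟩, (Nat.sInf_le hk).trans ?_⟩
  omega

end Pool.Agent.Results.MP_7c15de_co.TreeHost
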